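import Pool.Agent.Helper18.DF.BLBa

/-! `st_BLB`: the Brascamp-Lieb inequality on a ball. -/

open Finset MeasureTheory Filter Topology

namespace Pool.Agent.Helper18.DF

open Pool.Agent.Helper67.DF
open Pool.Agent.Helper67.BT (E PG Sp)

/-- the pointwise inequality -/
theorem point {n k : ℕ} {a : Fin n → E k} {c K α R C L C4 Mb e : ℝ} {U ψ w : Fin n → ℝ → ℝ}
    {f : E k → ℝ} {b : Fin n → E k → ℝ} (hPB : ST_PB) (h : PF c K α U ψ w)
    (hT : ∀ x h : E k, ‖x‖ ≤ R → ‖x + h‖ ≤ R →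
      |f (x + h) - f x - ∑ l, b l x * inner ℝ (a l) h| ≤ C * ‖h‖ ^ (1 + α)) (hC : 0 ≤ C)
    (hL : ∀ h : E k, ‖h‖ ^ (1 + α) ≤ L * ∑ l, |inner ℝ (a l) h| ^ (1 + α))
    (hC4 : C4 = C * L) (hC40 : 0 ≤ C4) (hMb : 0 ≤ Mb)
    (hb : ∀ x : E k, ‖x‖ ≤ R → ∀ l, |b l x| ≤ Mb) (he : 0 < e) (hη : C4 * e ^ α ≤ c / 8)
    (x y : E k) (hx : ‖x‖ ≤ R) (hy : ‖y‖ ≤ R) :
    (e * f x - VV a U x) * (1 / 2) + (-(e * f y) - VV a U y) * (1 / 2) ≤
      e ^ 2 * (∑ l, b l ((1 / 2 : ℝ) • x + (1 / 2 : ℝ) • y) ^ 2 /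
        w l (inner ℝ (a l) ((1 / 2 : ℝ) • x + (1 / 2 : ℝ) • y))) / 2 +
      n * (C4 * (1 + 8 * Mb / c) ^ (1 + α) + K * (1 + 8 * Mb / c) ^ (2 + α) / 2) *
        (e ^ 2 * e ^ α) - VV a U ((1 / 2 : ℝ) • x + (1 / 2 : ℝ) • y) := by
  set z : E k := (1 / 2 : ℝ) • x + (1 / 2 : ℝ) • y with hz
  set d : E k := (1 / 2 : ℝ) • x - (1 / 2 : ℝ) • y with hd
  have hx' : x = z + d := by
    rw [hz, hd]
    have : (1 / 2 : ℝ) • x + (1 / 2 : ℝ) • y + ((1 / 2 : ℝ) • x - (1 / 2 : ℝ) • y) =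
      (1 / 2 : ℝ) • x + (1 / 2 : ℝ) • x := by abel
    rw [this, ← add_smul]
    norm_num
  have hy' : y = z + -d := by
    rw [hz, hd]
    have : (1 / 2 : ℝ) • x + (1 / 2 : ℝ) • y + -((1 / 2 : ℝ) • x - (1 / 2 : ℝ) • y) =
      (1 / 2 : ℝ) • y + (1 / 2 : ℝ) • y := by abel
    rw [this, ← add_smul]
    norm_num
  have hzR : ‖z‖ ≤ R := by
    have h1 : ‖z‖ ≤ ‖(1 / 2 : ℝ) • x‖ + ‖(1 / 2 : ℝ) • y‖ := norm_add_le _ _
    rw [norm_smul, norm_smul, Real.norm_of_nonneg (by norm_num : (0 : ℝ) ≤ 1 / 2)] at h1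
    linarith
  have h1 := (abs_le.1 (hT z d hzR (by rw [← hx']; exact hx))).2
  have h2 := (abs_le.1 (hT z (-d) hzR (by rw [← hy']; exact hy))).1
  rw [norm_neg] at h2
  have h3 : ∑ l, b l z * inner ℝ (a l) (-d) = -∑ l, b l z * inner ℝ (a l) d := by
    rw [← Finset.sum_neg_distrib]
    refine Finset.sum_congr rfl fun l _ => ?_
    rw [inner_neg_right]
    ring
  rw [h3] at h2
  have h4 : C * ‖d‖ ^ (1 + α) ≤ C4 * ∑ l, |inner ℝ (a l) d| ^ (1 + α) := by
    rw [hC4, mul_assoc]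
    exact mul_le_mul_of_nonneg_left (hL d) hC
  have h5 : ∀ l, e * b l z * inner ℝ (a l) d + e * C4 * |inner ℝ (a l) d| ^ (1 + α) -
      (U l (inner ℝ (a l) z + inner ℝ (a l) d) + U l (inner ℝ (a l) z - inner ℝ (a l) d) -
        2 * U l (inner ℝ (a l) z)) / 2 ≤ e ^ 2 * (b l z ^ 2 / w l (inner ℝ (a l) z)) / 2 +
      (C4 * (1 + 8 * Mb / c) ^ (1 + α) + K * (1 + 8 * Mb / c) ^ (2 + α) / 2) *
        (e ^ 2 * e ^ α) := by
    intro l
    obtain ⟨-, -, -, -, -, -, -, -, -, p1, p2⟩ := hPB n c K α U ψ w h l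
    exact one_var h.c0 h.K0 h.a0 h.a1 hC40 hMb (h.lo l _) (hb z hzR l) he hη (p1 _ _) (p2 _ _)
  have h6 := Finset.sum_le_sum (s := (univ : Finset (Fin n))) fun l _ => h5 l
  have e1 : ∑ l, (e * b l z * inner ℝ (a l) d + e * C4 * |inner ℝ (a l) d| ^ (1 + α) -
      (U l (inner ℝ (a l) z + inner ℝ (a l) d) + U l (inner ℝ (a l) z - inner ℝ (a l) d) -
        2 * U l (inner ℝ (a l) z)) / 2) =
      e * (∑ l, b l z * inner ℝ (a l) d) + e * (C4 * ∑ l, |inner ℝ (a l) d| ^ (1 + α)) -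
        (∑ l, U l (inner ℝ (a l) z + inner ℝ (a l) d)) / 2 -
        (∑ l, U l (inner ℝ (a l) z - inner ℝ (a l) d)) / 2 + ∑ l, U l (inner ℝ (a l) z) := by
    rw [Finset.mul_sum, Finset.mul_sum, Finset.mul_sum, Finset.sum_div, Finset.sum_div,
      ← Finset.sum_add_distrib, ← Finset.sum_sub_distrib, ← Finset.sum_sub_distrib,
      ← Finset.sum_add_distrib]
    refine Finset.sum_congr rfl fun i _ => ?_
    ring
  have e2 : ∑ l, (e ^ 2 * (b l z ^ 2 / w l (inner ℝ (a l) z)) / 2 +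
      (C4 * (1 + 8 * Mb / c) ^ (1 + α) + K * (1 + 8 * Mb / c) ^ (2 + α) / 2) *
        (e ^ 2 * e ^ α)) = e ^ 2 * (∑ l, b l z ^ 2 / w l (inner ℝ (a l) z)) / 2 +
      n * (C4 * (1 + 8 * Mb / c) ^ (1 + α) + K * (1 + 8 * Mb / c) ^ (2 + α) / 2) *
        (e ^ 2 * e ^ α) := by
    rw [Finset.sum_add_distrib, Finset.sum_const, Finset.card_univ, Fintype.card_fin,
      nsmul_eq_mul, Finset.mul_sum, Finset.sum_div]
    ring
  rw [e1, e2] at h6
  have e3 : VV a U x = ∑ l, U l (inner ℝ (a l) z + inner ℝ (a l) d) := by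
    unfold VV
    refine Finset.sum_congr rfl fun l _ => ?_
    rw [← inner_add_right, ← hx']
  have e4 : VV a U y = ∑ l, U l (inner ℝ (a l) z - inner ℝ (a l) d) := by
    unfold VV
    refine Finset.sum_congr rfl fun l _ => ?_
    rw [← inner_sub_right, sub_eq_add_neg, ← hy']
  have e5 : VV a U z = ∑ l, U l (inner ℝ (a l) z) := rfl
  have h7 : e * (f x - f y) ≤ e * (2 * ∑ l, b l z * inner ℝ (a l) d + 2 *
      (C4 * ∑ l, |inner ℝ (a l) d| ^ (1 + α))) := by
    refine mul_le_mul_of_nonneg_left ?_ he.le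
    rw [← hx'] at h1
    rw [← hy'] at h2
    linarith
  rw [e3, e4, e5]
  linarith

theorem st_BLB (hPB : ST_PB) : ST_BLB := by
  intro n k a c K α R C₀ U ψ w f b hS h hf hb hT₀
  have hc := h.c0
  have hK := h.K0
  have hα := h.a0
  have hα1 := h.a1
  -- the constant of the remainder
  set C : ℝ := max C₀ 0 with hC
  have hC0 : 0 ≤ C := le_max_right _ _
  have hT : ∀ x h : E k, ‖x‖ ≤ R → ‖x + h‖ ≤ R →
      |f (x + h) - f x - ∑ l, b l x * inner ℝ (a l) h| ≤ C * ‖h‖ ^ (1 + α) := by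
    intro x h hx hh
    refine (hT₀ x h hx hh).trans ?_
    exact mul_le_mul_of_nonneg_right (le_max_left _ _) (Real.rpow_nonneg (norm_nonneg _) _)
  obtain ⟨L, hL0, hL⟩ := sp_pow a hS hα
  set B : Set (E k) := Metric.closedBall (0 : E k) R with hB
  have hBc : IsCompact B := isCompact_closedBall _ _
  have hBm : MeasurableSet B := Metric.isClosed_closedBall.measurableSet
  have hBmem : ∀ x : E k, x ∈ B ↔ ‖x‖ ≤ R := by
    intro x
    rw [hB, mem_closedBall_zero_iff]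
  -- continuity
  have hpb := fun l => hPB n c K α U ψ w h l
  have hin : ∀ l, Continuous fun x : E k => (inner ℝ (a l) x : ℝ) := fun l => by fun_prop
  have hVc : Continuous (VV a U) := by
    unfold VV
    exact continuous_finsetSum _ fun l _ => (hpb l).1.comp (hin l)
  set A : E k → ℝ := fun x => ∑ l, b l x ^ 2 / w l (inner ℝ (a l) x) with hA
  have hw0 : ∀ l t, 0 < w l t := fun l t => lt_of_lt_of_le hc (h.lo l t)
  have hAc : Continuous A := by
    rw [hA]
    refine continuous_finsetSum _ fun l _ => ?_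
    exact ((hb l).pow 2).div ((hpb l).2.2.1.comp (hin l)) fun x => (hw0 l _).ne'
  have hA0 : ∀ x, 0 ≤ A x := fun x =>
    Finset.sum_nonneg fun l _ => div_nonneg (sq_nonneg _) (hw0 l _).le
  set G : E k → ℝ := fun x => Real.exp (-(VV a U x)) with hG
  have hGc : Continuous G := Real.continuous_exp.comp hVc.neg
  have hG0 : ∀ x, 0 < G x := fun x => Real.exp_pos _
  -- bounds on the ball
  obtain ⟨Mf, hMf⟩ := hBc.exists_bound_of_continuousOn hf.continuousOn
  obtain ⟨MA, hMA⟩ := hBc.exists_bound_of_continuousOn hAc.continuousOn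
  obtain ⟨Mb, hMb⟩ := hBc.exists_bound_of_continuousOn
    (f := fun x => ∑ l, |b l x|) (continuous_finsetSum _ fun l _ => (hb l).abs).continuousOn
  set M1 : ℝ := max Mf 0 with hM1
  set M2 : ℝ := max MA 0 with hM2
  set M3 : ℝ := max Mb 0 with hM3
  have hM10 : 0 ≤ M1 := le_max_right _ _
  have hM20 : 0 ≤ M2 := le_max_right _ _
  have hM30 : 0 ≤ M3 := le_max_right _ _
  have hf1 : ∀ x ∈ B, |f x| ≤ M1 := fun x hx => (hMf x hx).trans (le_max_left _ _)
  have hA1 : ∀ x ∈ B, A x ≤ M2 := fun x hx =>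
    (le_abs_self _).trans ((hMA x hx).trans (le_max_left _ _))
  have hb1 : ∀ x : E k, ‖x‖ ≤ R → ∀ l, |b l x| ≤ M3 := by
    intro x hx l
    have h1 := hMb x ((hBmem x).2 hx)
    rw [Real.norm_eq_abs] at h1
    have h2 := Finset.single_le_sum (f := fun l => |b l x|) (fun l _ => abs_nonneg _)
      (Finset.mem_univ l)
    exact h2.trans ((le_abs_self _).trans (h1.trans (le_max_left _ _)))
  -- integrability
  have iB : ∀ {u : E k → ℝ}, Continuous u → IntegrableOn u B := fun hu => cont_int R hu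
  have iG : IntegrableOn G B := iB hGc
  have iF : IntegrableOn (fun x => f x * G x) B := iB (hf.mul hGc)
  have iF2 : IntegrableOn (fun x => f x ^ 2 * G x) B := iB ((hf.pow 2).mul hGc)
  have iA : IntegrableOn (fun x => A x * G x) B := iB (hAc.mul hGc)
  show (∫ x in B, G x) * (∫ x in B, f x ^ 2 * G x) - (∫ x in B, f x * G x) ^ 2
    ≤ (∫ x in B, G x) * ∫ x in B, A x * G x
  set I0 : ℝ := ∫ x in B, G x with hI0
  set I1 : ℝ := ∫ x in B, f x * G x with hI1
  set I2 : ℝ := ∫ x in B, f x ^ 2 * G x with hI2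
  set IA : ℝ := ∫ x in B, A x * G x with hIA
  have I0n : 0 ≤ I0 := integral_nonneg fun x => (hG0 x).le
  have I2n : 0 ≤ I2 := integral_nonneg fun x => mul_nonneg (sq_nonneg _) (hG0 x).le
  have IAn : 0 ≤ IA := integral_nonneg fun x => mul_nonneg (hA0 x) (hG0 x).le
  have I1b : |I1| ≤ M1 * I0 := by
    rw [hI1, hI0, ← integral_const_mul]
    refine (abs_integral_le_integral_abs).trans ?_
    refine setIntegral_mono_on iF.abs (iG.const_mul M1) hBm fun x hx => ?_
    show |f x * G x| ≤ M1 * G x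
    rw [abs_mul, abs_of_pos (hG0 x)]
    exact mul_le_mul_of_nonneg_right (hf1 x hx) (hG0 x).le
  set C4 : ℝ := C * L with hC4
  have hC40 : 0 ≤ C4 := by positivity
  set K1 : ℝ := n * (C4 * (1 + 8 * M3 / c) ^ (1 + α) + K * (1 + 8 * M3 / c) ^ (2 + α) / 2)
    with hK1
  have hK1n : 0 ≤ K1 := by positivity
  set N : ℝ := M2 / 2 + K1 with hN
  have hNn : 0 ≤ N := by positivity
  set K2 : ℝ := K1 + N ^ 2 with hK2
  have hK2n : 0 ≤ K2 := by positivity
  set e0 : ℝ := min 1 (min (1 / (2 * (M1 + 1))) (min ((c / (8 * (C4 + 1))) ^ α⁻¹)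
    (1 / (N + 1)))) with he0
  have he00 : 0 < e0 := by
    refine lt_min one_pos (lt_min (by positivity) (lt_min ?_ (by positivity)))
    exact Real.rpow_pos_of_pos (by positivity) _
  refine lim_le (a := I0 * I2 - I1 ^ 2) (b := I0 * IA) (α := α)
    (K := 2 * M1 ^ 3 * I0 ^ 2 + 2 * K2 * I0 ^ 2 + (IA / 2 + K2 * I0) ^ 2) hα he00 ?_
  intro e he hee
  have he1 : e ≤ 1 := hee.trans (min_le_left _ _)
  have he2 : e ≤ 1 / (2 * (M1 + 1)) := hee.trans ((min_le_right _ _).trans (min_le_left _ _))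
  have he3 : e ≤ (c / (8 * (C4 + 1))) ^ α⁻¹ :=
    hee.trans ((min_le_right _ _).trans ((min_le_right _ _).trans (min_le_left _ _)))
  have he4 : e ≤ 1 / (N + 1) :=
    hee.trans ((min_le_right _ _).trans ((min_le_right _ _).trans (min_le_right _ _)))
  have hη1 : e ^ α ≤ 1 := Real.rpow_le_one he.le he1 hα.le
  have heη : e ≤ e ^ α := by
    have := Real.rpow_le_rpow_of_exponent_ge he he1 hα1
    rwa [Real.rpow_one] at this
  have hη0 : 0 < e ^ α := Real.rpow_pos_of_pos he _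
  have hηC : C4 * e ^ α ≤ c / 8 := by
    have h1 : e ^ α ≤ c / (8 * (C4 + 1)) := by
      calc e ^ α ≤ ((c / (8 * (C4 + 1))) ^ α⁻¹) ^ α := Real.rpow_le_rpow he.le he3 hα.le
        _ = _ := by rw [← Real.rpow_mul (by positivity), inv_mul_cancel₀ hα.ne', Real.rpow_one]
    calc C4 * e ^ α ≤ (C4 + 1) * (c / (8 * (C4 + 1))) := by
          refine mul_le_mul (by linarith) h1 hη0.le (by linarith)
      _ = c / 8 := by field_simp
  have heC : e * M1 ≤ 1 / 2 := by
    calc e * M1 ≤ 1 / (2 * (M1 + 1)) * (M1 + 1) := by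
          refine mul_le_mul he2 (by linarith) hM10 (by positivity)
      _ = 1 / 2 := by field_simp
  have heN : e * N ≤ 1 := by
    calc e * N ≤ 1 / (N + 1) * (N + 1) := by
          refine mul_le_mul he4 (by linarith) hNn (by positivity)
      _ = 1 := by field_simp
  -- the three functions
  set p : E k → ℝ := fun x => e * f x - VV a U x with hp
  set q : E k → ℝ := fun x => -(e * f x) - VV a U x with hq
  set s : E k → ℝ := fun x => e ^ 2 * A x / 2 + K1 * (e ^ 2 * e ^ α) - VV a U x with hs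
  have pc : Continuous p := (hf.const_mul e).sub hVc
  have qc : Continuous q := (hf.const_mul e).neg.sub hVc
  have sc : Continuous s := (((hAc.const_mul (e ^ 2)).div_const 2).add continuous_const).sub hVc
  have pe : ∀ x, Real.exp (p x) = Real.exp (e * f x) * G x := by
    intro x
    show Real.exp (e * f x - VV a U x) = Real.exp (e * f x) * Real.exp (-(VV a U x))
    rw [← Real.exp_add, sub_eq_add_neg]
  have qe : ∀ x, Real.exp (q x) = Real.exp (-(e * f x)) * G x := by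
    intro x
    show Real.exp (-(e * f x) - VV a U x) = Real.exp (-(e * f x)) * Real.exp (-(VV a U x))
    rw [← Real.exp_add, sub_eq_add_neg]
  have se : ∀ x, Real.exp (s x) = Real.exp (e ^ 2 * A x / 2 + K1 * (e ^ 2 * e ^ α)) * G x := by
    intro x
    show Real.exp (e ^ 2 * A x / 2 + K1 * (e ^ 2 * e ^ α) - VV a U x)
      = Real.exp (e ^ 2 * A x / 2 + K1 * (e ^ 2 * e ^ α)) * Real.exp (-(VV a U x))
    rw [← Real.exp_add, sub_eq_add_neg]
  have heF : ∀ x ∈ B, |e * f x| ≤ 1 := by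
    intro x hx
    rw [abs_mul, abs_of_pos he]
    calc e * |f x| ≤ e * M1 := mul_le_mul_of_nonneg_left (hf1 x hx) he.le
      _ ≤ 1 := by linarith
  have heF' : ∀ x ∈ B, |-(e * f x)| ≤ 1 := by
    intro x hx
    rw [abs_neg]
    exact heF x hx
  have hs0 : ∀ x, 0 ≤ e ^ 2 * A x / 2 + K1 * (e ^ 2 * e ^ α) := by
    intro x
    have := hA0 x
    positivity
  have hs1 : ∀ x ∈ B, e ^ 2 * A x / 2 + K1 * (e ^ 2 * e ^ α) ≤ e ^ 2 * N := by
    intro x hx
    have h1 : e ^ 2 * A x ≤ e ^ 2 * M2 := mul_le_mul_of_nonneg_left (hA1 x hx) (sq_nonneg e)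
    have h2 : K1 * (e ^ 2 * e ^ α) ≤ e ^ 2 * K1 := by
      have : e ^ 2 * e ^ α ≤ e ^ 2 := mul_le_of_le_one_right (by positivity) hη1
      calc K1 * (e ^ 2 * e ^ α) ≤ K1 * e ^ 2 := mul_le_mul_of_nonneg_left this hK1n
        _ = e ^ 2 * K1 := by ring
    rw [hN]
    linarith
  have heN2 : e ^ 2 * N ≤ 1 := by
    have : e ^ 2 * N = e * (e * N) := by ring
    rw [this]
    have h1 : 0 ≤ e * N := by positivity
    nlinarith
  have ip : IntegrableOn (fun x => Real.exp (p x)) B := iB (Real.continuous_exp.comp pc)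
  have iq : IntegrableOn (fun x => Real.exp (q x)) B := iB (Real.continuous_exp.comp qc)
  have is : IntegrableOn (fun x => Real.exp (s x)) B := iB (Real.continuous_exp.comp sc)
  have hPL := pl_ball pc qc sc R (fun x y hx hy => by
    have := point (e := e) hPB h hT hC0 hL hC4 hC40 hM30 hb1 he hηC x y hx hy
    exact this)
  refine alg I0n I2n IAn hM10 he he1 heη hη1 heC I1b hK2n ?_ ?_ ?_
    (integral_nonneg fun x => (Real.exp_pos _).le) hPL
  · -- lower bound of the first integral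
    have h1 : ∀ x ∈ B, G x + e * (f x * G x) + e ^ 2 / 2 * (f x ^ 2 * G x) -
        M1 ^ 3 * e ^ 3 * G x ≤ Real.exp (p x) := by
      intro x hx
      rw [pe x]
      have h2 := exp_lower (heF x hx)
      have h3 : |e * f x| ^ 3 ≤ M1 ^ 3 * e ^ 3 := by
        rw [abs_mul, abs_of_pos he, mul_pow, mul_comm]
        have := pow_le_pow_left₀ (abs_nonneg _) (hf1 x hx) 3
        gcongr
      have h4 : (1 + e * f x + (e * f x) ^ 2 / 2 - M1 ^ 3 * e ^ 3) * G x
          ≤ Real.exp (e * f x) * G x :=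
        mul_le_mul_of_nonneg_right (by linarith) (hG0 x).le
      refine le_trans (le_of_eq ?_) h4
      ring
    have h2 : ∫ x in B, (G x + e * (f x * G x) + e ^ 2 / 2 * (f x ^ 2 * G x) -
        M1 ^ 3 * e ^ 3 * G x) = I0 + e * I1 + e ^ 2 / 2 * I2 - M1 ^ 3 * e ^ 3 * I0 := by
      rw [integral_sub, integral_add, integral_add, integral_const_mul, integral_const_mul,
        integral_const_mul]
      · exact iG
      · exact iF.const_mul e
      · exact iG.add (iF.const_mul e)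
      · exact iF2.const_mul _
      · exact (iG.add (iF.const_mul e)).add (iF2.const_mul _)
      · exact iG.const_mul _
    have h3 := setIntegral_mono_on (((iG.add (iF.const_mul e)).add
      (iF2.const_mul (e ^ 2 / 2))).sub (iG.const_mul (M1 ^ 3 * e ^ 3))) ip hBm h1
    have h4 : I0 + e * I1 + e ^ 2 / 2 * I2 - M1 ^ 3 * e ^ 3 * I0 ≤
        ∫ x in B, Real.exp (p x) := by
      rw [← h2]; exact h3
    refine le_trans (le_of_eq ?_) h4
    ring
  · have h1 : ∀ x ∈ B, G x - e * (f x * G x) + e ^ 2 / 2 * (f x ^ 2 * G x) -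
        M1 ^ 3 * e ^ 3 * G x ≤ Real.exp (q x) := by
      intro x hx
      rw [qe x]
      have h2 := exp_lower (heF' x hx)
      have h3 : |-(e * f x)| ^ 3 ≤ M1 ^ 3 * e ^ 3 := by
        rw [abs_neg, abs_mul, abs_of_pos he, mul_pow, mul_comm]
        have := pow_le_pow_left₀ (abs_nonneg _) (hf1 x hx) 3
        gcongr
      have h4 : (1 + -(e * f x) + (-(e * f x)) ^ 2 / 2 - M1 ^ 3 * e ^ 3) * G x
          ≤ Real.exp (-(e * f x)) * G x :=
        mul_le_mul_of_nonneg_right (by linarith) (hG0 x).le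
      refine le_trans (le_of_eq ?_) h4
      ring
    have h2 : ∫ x in B, (G x - e * (f x * G x) + e ^ 2 / 2 * (f x ^ 2 * G x) -
        M1 ^ 3 * e ^ 3 * G x) = I0 - e * I1 + e ^ 2 / 2 * I2 - M1 ^ 3 * e ^ 3 * I0 := by
      rw [integral_sub, integral_add, integral_sub, integral_const_mul, integral_const_mul,
        integral_const_mul]
      · exact iG
      · exact iF.const_mul e
      · exact iG.sub (iF.const_mul e)
      · exact iF2.const_mul _
      · exact (iG.sub (iF.const_mul e)).add (iF2.const_mul _)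
      · exact iG.const_mul _
    have h3 := setIntegral_mono_on (((iG.sub (iF.const_mul e)).add
      (iF2.const_mul (e ^ 2 / 2))).sub (iG.const_mul (M1 ^ 3 * e ^ 3))) iq hBm h1
    have h4 : I0 - e * I1 + e ^ 2 / 2 * I2 - M1 ^ 3 * e ^ 3 * I0 ≤
        ∫ x in B, Real.exp (q x) := by
      rw [← h2]; exact h3
    refine le_trans (le_of_eq ?_) h4
    ring
  · -- upper bound
    have h1 : ∀ x ∈ B, Real.exp (s x) ≤ G x + e ^ 2 / 2 * (A x * G x) +
        (e ^ 2 * e ^ α) * K2 * G x := by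
      intro x hx
      rw [se x]
      have h2 := exp_upper (hs0 x) ((hs1 x hx).trans heN2)
      have h3 : (e ^ 2 * A x / 2 + K1 * (e ^ 2 * e ^ α)) ^ 2 ≤ (e ^ 2 * e ^ α) * N ^ 2 := by
        calc (e ^ 2 * A x / 2 + K1 * (e ^ 2 * e ^ α)) ^ 2 ≤ (e ^ 2 * N) ^ 2 :=
              pow_le_pow_left₀ (hs0 x) (hs1 x hx) 2
          _ = e ^ 2 * (e * e) * N ^ 2 := by ring
          _ ≤ (e ^ 2 * e ^ α) * N ^ 2 := by
              have h52 : e * e ≤ e ^ α := by
                calc e * e ≤ e * 1 := mul_le_mul_of_nonneg_left he1 he.le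
                  _ ≤ e ^ α := by linarith
              gcongr
      have h4 : Real.exp (e ^ 2 * A x / 2 + K1 * (e ^ 2 * e ^ α)) * G x
          ≤ (1 + e ^ 2 * A x / 2 + (e ^ 2 * e ^ α) * K2) * G x := by
        refine mul_le_mul_of_nonneg_right ?_ (hG0 x).le
        rw [hK2]
        linarith
      refine h4.trans (le_of_eq ?_)
      ring
    have h2 : ∫ x in B, (G x + e ^ 2 / 2 * (A x * G x) + (e ^ 2 * e ^ α) * K2 * G x)
        = I0 + e ^ 2 / 2 * IA + (e ^ 2 * e ^ α) * K2 * I0 := by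
      rw [integral_add, integral_add, integral_const_mul, integral_const_mul]
      · exact iG
      · exact iA.const_mul _
      · exact iG.add (iA.const_mul _)
      · exact iG.const_mul _
    have h3 := setIntegral_mono_on is ((iG.add (iA.const_mul (e ^ 2 / 2))).add
      (iG.const_mul ((e ^ 2 * e ^ α) * K2))) hBm h1
    have h4 : ∫ x in B, Real.exp (s x) ≤ I0 + e ^ 2 / 2 * IA + (e ^ 2 * e ^ α) * K2 * I0 := by
      rw [← h2]; exact h3
    refine le_trans h4 (le_of_eq ?_)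
    ring

end Pool.Agent.Helper18.DF
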