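import Pool.Agent.Helper67.DF.Stmts
import Pool.Agent.Helper67.LB.PLn

/-!
Preparations for `st_BLB`: Prekopa-Leindler on a ball, the one-variable inequality, the algebra of
the expansion.
-/

open Finset MeasureTheory Filter Topology
open scoped ENNReal

namespace Pool.Agent.Helper18.DF

open Pool.Agent.Helper67.DF
open Pool.Agent.Helper67.BT (E PG Sp)

/-! ### Prekopa-Leindler on a ball -/

/-- the indicator function of the ball times the exponential -/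
noncomputable def ind {k : ℕ} (R : ℝ) (u : E k → ℝ) (y : E k) : ℝ≥0∞ :=
  (Metric.closedBall (0 : E k) R).indicator (fun y => ENNReal.ofReal (Real.exp (u y))) y

theorem ind_meas {k : ℕ} (R : ℝ) {u : E k → ℝ} (hu : Continuous u) : Measurable (ind R u) := by
  unfold ind
  exact ((Real.continuous_exp.comp hu).measurable.ennreal_ofReal).indicator
    Metric.isClosed_closedBall.measurableSet

theorem cont_int {k : ℕ} (R : ℝ) {u : E k → ℝ} (hu : Continuous u) :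
    IntegrableOn u (Metric.closedBall (0 : E k) R) :=
  hu.continuousOn.integrableOn_compact (isCompact_closedBall _ _)

theorem ind_lint {k : ℕ} (R : ℝ) {u : E k → ℝ} (hu : Continuous u) :
    ∫⁻ x : Fin k → ℝ, ind R u (WithLp.toLp 2 x) =
      ENNReal.ofReal (∫ x in Metric.closedBall (0 : E k) R, Real.exp (u x)) := by
  have h1 : ∫⁻ x : Fin k → ℝ, ind R u (WithLp.toLp 2 x) = ∫⁻ y : E k, ind R u y :=
    (PiLp.volume_preserving_toLp (Fin k)).lintegral_comp (ind_meas R hu)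
  have h2 : IntegrableOn (fun x => Real.exp (u x)) (Metric.closedBall (0 : E k) R) :=
    cont_int R (Real.continuous_exp.comp hu)
  rw [h1]
  unfold ind
  rw [lintegral_indicator Metric.isClosed_closedBall.measurableSet,
    ofReal_integral_eq_lintegral_ofReal h2
      (Filter.Eventually.of_forall fun x => (Real.exp_pos _).le)]

theorem pl_ball {k : ℕ} {p q s : E k → ℝ} (hp : Continuous p) (hq : Continuous q)
    (hs : Continuous s) (R : ℝ)
    (H : ∀ x y : E k, ‖x‖ ≤ R → ‖y‖ ≤ R →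
      p x * (1 / 2) + q y * (1 / 2) ≤ s ((1 / 2 : ℝ) • x + (1 / 2 : ℝ) • y)) :
    (∫ x in Metric.closedBall (0 : E k) R, Real.exp (p x)) *
      (∫ x in Metric.closedBall (0 : E k) R, Real.exp (q x)) ≤
      (∫ x in Metric.closedBall (0 : E k) R, Real.exp (s x)) ^ 2 := by
  have hm : Measurable (fun x : Fin k → ℝ => (WithLp.toLp 2 x : E k)) :=
    (PiLp.volume_preserving_toLp (Fin k)).measurable
  have h1 := Pool.Agent.Helper67.LB.pl_pi k ((ind_meas R hp).comp hm) ((ind_meas R hq).comp hm)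
    ((ind_meas R hs).comp hm) (l := 1 / 2) (m := 1 / 2) (by norm_num)
    (by norm_num) (by norm_num) (by
      intro x y
      simp only [Function.comp]
      by_cases hx : (WithLp.toLp 2 x : E k) ∈ Metric.closedBall (0 : E k) R
      · by_cases hy : (WithLp.toLp 2 y : E k) ∈ Metric.closedBall (0 : E k) R
        · have hz : (WithLp.toLp 2 ((1 / 2 : ℝ) • x + (1 / 2 : ℝ) • y) : E k) =
            (1 / 2 : ℝ) • WithLp.toLp 2 x + (1 / 2 : ℝ) • WithLp.toLp 2 y := rfl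
          have hzb : (WithLp.toLp 2 ((1 / 2 : ℝ) • x + (1 / 2 : ℝ) • y) : E k) ∈
              Metric.closedBall (0 : E k) R := by
            rw [hz]
            exact (convex_closedBall (0 : E k) R) hx hy (by norm_num) (by norm_num) (by norm_num)
          unfold ind
          rw [Set.indicator_of_mem hx, Set.indicator_of_mem hy, Set.indicator_of_mem hzb, hz,
            ENNReal.ofReal_rpow_of_pos (Real.exp_pos _), ENNReal.ofReal_rpow_of_pos (Real.exp_pos _),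
            ← ENNReal.ofReal_mul (Real.rpow_nonneg (Real.exp_pos _).le _), ← Real.exp_mul,
            ← Real.exp_mul, ← Real.exp_add]
          refine ENNReal.ofReal_le_ofReal (Real.exp_le_exp.2 (H _ _ ?_ ?_))
          · simpa using hx
          · simpa using hy
        · unfold ind
          rw [Set.indicator_of_notMem hy, ENNReal.zero_rpow_of_pos (by norm_num), mul_zero]
          exact zero_le
      · unfold ind
        rw [Set.indicator_of_notMem hx, ENNReal.zero_rpow_of_pos (by norm_num), zero_mul]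
        exact zero_le)
  simp only [Function.comp] at h1
  rw [ind_lint R hp, ind_lint R hq, ind_lint R hs] at h1
  have p0 : 0 ≤ ∫ x in Metric.closedBall (0 : E k) R, Real.exp (p x) :=
    integral_nonneg fun x => (Real.exp_pos _).le
  have q0 : 0 ≤ ∫ x in Metric.closedBall (0 : E k) R, Real.exp (q x) :=
    integral_nonneg fun x => (Real.exp_pos _).le
  have s0 : 0 ≤ ∫ x in Metric.closedBall (0 : E k) R, Real.exp (s x) :=
    integral_nonneg fun x => (Real.exp_pos _).le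
  rw [ENNReal.ofReal_rpow_of_nonneg p0 (by norm_num),
    ENNReal.ofReal_rpow_of_nonneg q0 (by norm_num),
    ← ENNReal.ofReal_mul (Real.rpow_nonneg p0 _), ENNReal.ofReal_le_ofReal_iff s0,
    ← Real.sqrt_eq_rpow, ← Real.sqrt_eq_rpow, ← Real.sqrt_mul p0] at h1
  rw [← Real.sq_sqrt (mul_nonneg p0 q0)]
  exact pow_le_pow_left₀ (Real.sqrt_nonneg _) h1 2

/-! ### The norm and the linear forms -/

theorem sp_pow {n k : ℕ} (a : Fin n → E k) (hS : Sp a) {α : ℝ} (hα : 0 < α) :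
    ∃ L : ℝ, 0 ≤ L ∧ ∀ h : E k, ‖h‖ ^ (1 + α) ≤ L * ∑ l, |inner ℝ (a l) h| ^ (1 + α) := by
  let T : E k →ₗ[ℝ] (Fin n → ℝ) := LinearMap.pi fun l => innerₛₗ ℝ (a l)
  have hT : LinearMap.ker T = ⊥ := by
    rw [LinearMap.ker_eq_bot']
    intro y hy
    refine hS y fun i => ?_
    exact congrFun hy i
  obtain ⟨K, hK, hKT⟩ := T.exists_antilipschitzWith hT
  refine ⟨(K : ℝ) ^ (1 + α), by positivity, fun h => ?_⟩
  have h1 : ‖h‖ ≤ K * ‖T h‖ := by
    have := hKT.le_mul_dist h 0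
    simpa [dist_zero_right] using this
  have hs : 0 ≤ ∑ l, |inner ℝ (a l) h| ^ (1 + α) :=
    Finset.sum_nonneg fun l _ => Real.rpow_nonneg (abs_nonneg _) _
  have h2 : ‖T h‖ ≤ (∑ l, |inner ℝ (a l) h| ^ (1 + α)) ^ (1 + α)⁻¹ := by
    rw [pi_norm_le_iff_of_nonneg (Real.rpow_nonneg hs _)]
    intro l
    have h3 : ‖T h l‖ = |inner ℝ (a l) h| := rfl
    rw [h3]
    have h4 : |inner ℝ (a l) h| = (|inner ℝ (a l) h| ^ (1 + α)) ^ (1 + α)⁻¹ := by
      rw [← Real.rpow_mul (abs_nonneg _), mul_inv_cancel₀ (by positivity), Real.rpow_one]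
    rw [h4]
    refine Real.rpow_le_rpow (Real.rpow_nonneg (abs_nonneg _) _) ?_ (by positivity)
    exact Finset.single_le_sum (f := fun l => |inner ℝ (a l) h| ^ (1 + α))
      (fun l _ => Real.rpow_nonneg (abs_nonneg _) _) (Finset.mem_univ l)
  have h5 : ‖T h‖ ^ (1 + α) ≤ ∑ l, |inner ℝ (a l) h| ^ (1 + α) := by
    calc ‖T h‖ ^ (1 + α) ≤ ((∑ l, |inner ℝ (a l) h| ^ (1 + α)) ^ (1 + α)⁻¹) ^ (1 + α) :=
          Real.rpow_le_rpow (norm_nonneg _) h2 (by positivity)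
      _ = _ := by
          rw [← Real.rpow_mul hs, inv_mul_cancel₀ (by positivity), Real.rpow_one]
  calc ‖h‖ ^ (1 + α) ≤ (K * ‖T h‖) ^ (1 + α) :=
        Real.rpow_le_rpow (norm_nonneg _) h1 (by positivity)
    _ = (K : ℝ) ^ (1 + α) * ‖T h‖ ^ (1 + α) := Real.mul_rpow (by positivity) (norm_nonneg _)
    _ ≤ _ := mul_le_mul_of_nonneg_left h5 (by positivity)

/-! ### The one-variable inequality -/

theorem amgm {e w k D : ℝ} (hD : 0 < D) :
    e * w * k - D * k ^ 2 / 2 ≤ e ^ 2 * (w ^ 2 / D) / 2 := by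
  have h1 : e ^ 2 * (w ^ 2 / D) / 2 - (e * w * k - D * k ^ 2 / 2)
      = (e * w - D * k) ^ 2 / (2 * D) := by
    field_simp
    ring
  have h2 : 0 ≤ (e * w - D * k) ^ 2 / (2 * D) := by positivity
  linarith

theorem one_var {c K α C4 Mb w b e κ D2 : ℝ} (hc : 0 < c) (hK : 0 ≤ K) (hα : 0 < α)
    (hα1 : α ≤ 1) (hC4 : 0 ≤ C4) (hMb : 0 ≤ Mb) (hw : c ≤ w) (hb : |b| ≤ Mb) (he : 0 < e)
    (hη : C4 * e ^ α ≤ c / 8) (h1 : c * κ ^ 2 ≤ D2) (h2 : w * κ ^ 2 - K * |κ| ^ (2 + α) ≤ D2) :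
    e * b * κ + e * C4 * |κ| ^ (1 + α) - D2 / 2 ≤ e ^ 2 * (b ^ 2 / w) / 2 +
      (C4 * (1 + 8 * Mb / c) ^ (1 + α) + K * (1 + 8 * Mb / c) ^ (2 + α) / 2) *
        (e ^ 2 * e ^ α) := by
  have hw0 : 0 < w := lt_of_lt_of_le hc hw
  set K1 : ℝ := 1 + 8 * Mb / c with hK1
  have hK0 : 0 ≤ K1 := by positivity
  have hK11 : 1 ≤ K1 := by
    have : 0 ≤ 8 * Mb / c := by positivity
    linarith
  have hk0 : 0 ≤ |κ| := abs_nonneg κ
  have hkk : κ ^ 2 = |κ| ^ 2 := (sq_abs κ).symm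
  have he1 : e * e ^ (1 + α) = e ^ 2 * e ^ α := by
    rw [Real.rpow_add he, Real.rpow_one]
    ring
  have he2 : e ^ (2 + α) = e ^ 2 * e ^ α := by
    rw [Real.rpow_add he, Real.rpow_two]
  by_cases hk : |κ| ≤ K1 * e
  · have h3 := amgm (e := e) (w := b) (k := κ) hw0
    have h4 : |κ| ^ (1 + α) ≤ K1 ^ (1 + α) * e ^ (1 + α) := by
      rw [← Real.mul_rpow hK0 he.le]
      exact Real.rpow_le_rpow hk0 hk (by positivity)
    have h5 : |κ| ^ (2 + α) ≤ K1 ^ (2 + α) * e ^ (2 + α) := by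
      rw [← Real.mul_rpow hK0 he.le]
      exact Real.rpow_le_rpow hk0 hk (by positivity)
    have h6 : e * C4 * |κ| ^ (1 + α) ≤ C4 * K1 ^ (1 + α) * (e ^ 2 * e ^ α) := by
      calc e * C4 * |κ| ^ (1 + α) ≤ e * C4 * (K1 ^ (1 + α) * e ^ (1 + α)) :=
            mul_le_mul_of_nonneg_left h4 (by positivity)
        _ = C4 * K1 ^ (1 + α) * (e * e ^ (1 + α)) := by ring
        _ = _ := by rw [he1]
    have h7 : K * |κ| ^ (2 + α) ≤ K * K1 ^ (2 + α) * (e ^ 2 * e ^ α) := by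
      calc K * |κ| ^ (2 + α) ≤ K * (K1 ^ (2 + α) * e ^ (2 + α)) :=
            mul_le_mul_of_nonneg_left h5 hK
        _ = _ := by rw [he2]; ring
    nlinarith [h2, h3, h6, h7]
  · push Not at hk
    have hke : e ≤ |κ| := by
      have : 1 * e ≤ K1 * e := mul_le_mul_of_nonneg_right hK11 he.le
      linarith
    have hk00 : 0 < |κ| := lt_of_lt_of_le he hke
    have h3 : e * b * κ ≤ e * Mb * |κ| := by
      have h31 : e * b * κ ≤ |e * b * κ| := le_abs_self _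
      rw [abs_mul, abs_mul, abs_of_pos he] at h31
      have h32 : e * |b| * |κ| ≤ e * Mb * |κ| := by gcongr
      linarith
    have h5 : e * Mb ≤ c / 8 * |κ| := by
      have h51 : K1 * e * c ≤ |κ| * c := mul_le_mul_of_nonneg_right hk.le hc.le
      have h52 : K1 * e * c = e * c + 8 * Mb * e := by
        rw [hK1]; field_simp
      have h53 : 0 ≤ e * c := by positivity
      nlinarith
    have h6 : e * Mb * |κ| ≤ c / 8 * κ ^ 2 := by
      rw [hkk]
      nlinarith [mul_le_mul_of_nonneg_right h5 hk0]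
    have h7 : e * |κ| ^ (1 + α) ≤ e ^ α * κ ^ 2 := by
      have h71 : e = e ^ α * e ^ (1 - α) := by
        rw [← Real.rpow_add he]
        have : α + (1 - α) = 1 := by ring
        rw [this, Real.rpow_one]
      have h72 : e ^ (1 - α) ≤ |κ| ^ (1 - α) := Real.rpow_le_rpow he.le hke (by linarith)
      have h73 : |κ| ^ (1 - α) * |κ| ^ (1 + α) = κ ^ 2 := by
        rw [← Real.rpow_add hk00]
        have : 1 - α + (1 + α) = 2 := by ring
        rw [this, Real.rpow_two, sq_abs]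
      calc e * |κ| ^ (1 + α) = e ^ α * e ^ (1 - α) * |κ| ^ (1 + α) := by rw [← h71]
        _ ≤ e ^ α * |κ| ^ (1 - α) * |κ| ^ (1 + α) := by gcongr
        _ = e ^ α * κ ^ 2 := by rw [mul_assoc, h73]
    have h8 : e * C4 * |κ| ^ (1 + α) ≤ c / 8 * κ ^ 2 := by
      calc e * C4 * |κ| ^ (1 + α) = C4 * (e * |κ| ^ (1 + α)) := by ring
        _ ≤ C4 * (e ^ α * κ ^ 2) := mul_le_mul_of_nonneg_left h7 hC4
        _ = C4 * e ^ α * κ ^ 2 := by ring
        _ ≤ c / 8 * κ ^ 2 := mul_le_mul_of_nonneg_right hη (sq_nonneg _)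
    have h9 : 0 ≤ e ^ 2 * (b ^ 2 / w) / 2 := by positivity
    have h10 : 0 ≤ (C4 * K1 ^ (1 + α) + K * K1 ^ (2 + α) / 2) * (e ^ 2 * e ^ α) := by positivity
    nlinarith [sq_nonneg κ]

/-! ### Elementary bounds of the exponential -/

theorem exp_lower {s : ℝ} (hs : |s| ≤ 1) : 1 + s + s ^ 2 / 2 - |s| ^ 3 ≤ Real.exp s := by
  have h := Real.exp_bound hs (n := 3) (by norm_num)
  have h1 : ∑ i ∈ Finset.range 3, s ^ i / (Nat.factorial i : ℝ) = 1 + s + s ^ 2 / 2 := by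
    simp [Finset.sum_range_succ, Nat.factorial]
  rw [h1] at h
  have h2 := (abs_le.1 h).1
  have h3 : |s| ^ 3 * (((3 : ℕ).succ : ℝ) / (((3 : ℕ).factorial : ℝ) * ((3 : ℕ) : ℝ)))
      ≤ |s| ^ 3 := by
    have : (((3 : ℕ).succ : ℝ) / (((3 : ℕ).factorial : ℝ) * ((3 : ℕ) : ℝ))) ≤ 1 := by
      norm_num [Nat.factorial]
    exact mul_le_of_le_one_right (by positivity) this
  linarith

theorem exp_upper {s : ℝ} (hs0 : 0 ≤ s) (hs : s ≤ 1) : Real.exp s ≤ 1 + s + s ^ 2 := by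
  have h := Real.abs_exp_sub_one_sub_id_le (x := s) (by rw [abs_of_nonneg hs0]; exact hs)
  have h1 := (abs_le.1 h).2
  linarith

/-- the limit -/
theorem lim_le {a b K α e0 : ℝ} (hα : 0 < α) (he0 : 0 < e0)
    (h : ∀ e : ℝ, 0 < e → e ≤ e0 → e ^ 2 * a ≤ e ^ 2 * b + K * (e ^ 2 * e ^ α)) : a ≤ b := by
  refine le_of_forall_pos_le_add fun ε hε => ?_
  have hK : 0 < |K| + 1 := by positivity
  set e : ℝ := min e0 ((ε / (|K| + 1)) ^ α⁻¹) with he
  have hr : 0 < (ε / (|K| + 1)) ^ α⁻¹ := Real.rpow_pos_of_pos (by positivity) _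
  have he1 : 0 < e := lt_min he0 hr
  have h1 := h e he1 (min_le_left _ _)
  have h2 : e ^ α ≤ ε / (|K| + 1) := by
    calc e ^ α ≤ ((ε / (|K| + 1)) ^ α⁻¹) ^ α :=
          Real.rpow_le_rpow he1.le (min_le_right _ _) hα.le
      _ = ε / (|K| + 1) := by
          rw [← Real.rpow_mul (by positivity), inv_mul_cancel₀ hα.ne', Real.rpow_one]
  have h3 : K * e ^ α ≤ ε := by
    have h31 : K * e ^ α ≤ (|K| + 1) * e ^ α := by
      have := le_abs_self K
      have h32 : 0 ≤ e ^ α := Real.rpow_nonneg he1.le _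
      nlinarith
    calc K * e ^ α ≤ (|K| + 1) * e ^ α := h31
      _ ≤ (|K| + 1) * (ε / (|K| + 1)) := mul_le_mul_of_nonneg_left h2 hK.le
      _ = ε := by field_simp
  have he2 : 0 < e ^ 2 := by positivity
  have h4 : e ^ 2 * a ≤ e ^ 2 * (b + ε) := by
    calc e ^ 2 * a ≤ e ^ 2 * b + K * (e ^ 2 * e ^ α) := h1
      _ = e ^ 2 * (b + K * e ^ α) := by ring
      _ ≤ e ^ 2 * (b + ε) := mul_le_mul_of_nonneg_left (by linarith) he2.le
  exact le_of_mul_le_mul_left h4 he2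

/-- The algebra of the expansion. -/
theorem alg {I0 I1 I2 IA P Q R C e η K2 : ℝ} (hI0 : 0 ≤ I0) (hI2 : 0 ≤ I2) (hIA : 0 ≤ IA)
    (hC : 0 ≤ C) (he : 0 < e) (he1 : e ≤ 1) (heη : e ≤ η) (hη1 : η ≤ 1) (heC : e * C ≤ 1 / 2)
    (hI1 : |I1| ≤ C * I0) (hK2 : 0 ≤ K2)
    (hP : I0 + e * I1 + e ^ 2 * I2 / 2 - C ^ 3 * e ^ 3 * I0 ≤ P)
    (hQ : I0 - e * I1 + e ^ 2 * I2 / 2 - C ^ 3 * e ^ 3 * I0 ≤ Q)
    (hR : R ≤ I0 + e ^ 2 * IA / 2 + (e ^ 2 * η) * K2 * I0) (hR0 : 0 ≤ R) (h : P * Q ≤ R ^ 2) :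
    e ^ 2 * (I0 * I2 - I1 ^ 2) ≤ e ^ 2 * (I0 * IA)
      + (2 * C ^ 3 * I0 ^ 2 + 2 * K2 * I0 ^ 2 + (IA / 2 + K2 * I0) ^ 2) * (e ^ 2 * η) := by
  have hη0 : 0 < η := lt_of_lt_of_le he heη
  have hx0 : 0 ≤ e * C := by positivity
  have hx3 : C ^ 3 * e ^ 3 ≤ 1 / 8 := by
    have : C ^ 3 * e ^ 3 = (e * C) ^ 3 := by ring
    rw [this]
    calc (e * C) ^ 3 ≤ (1 / 2) ^ 3 := pow_le_pow_left₀ hx0 heC 3
      _ = 1 / 8 := by norm_num
  have hx3' : 0 ≤ C ^ 3 * e ^ 3 := by positivity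
  set a : ℝ := I0 + e ^ 2 * I2 / 2 - C ^ 3 * e ^ 3 * I0 with ha
  have hb : |e * I1| ≤ I0 / 2 := by
    rw [abs_mul, abs_of_pos he]
    calc e * |I1| ≤ e * (C * I0) := mul_le_mul_of_nonneg_left hI1 he.le
      _ = (e * C) * I0 := by ring
      _ ≤ 1 / 2 * I0 := mul_le_mul_of_nonneg_right heC hI0
      _ = I0 / 2 := by ring
  have hb1 := (abs_le.1 hb).1
  have hb2 := (abs_le.1 hb).2
  have hy : C ^ 3 * e ^ 3 * I0 ≤ 1 / 8 * I0 := mul_le_mul_of_nonneg_right hx3 hI0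
  have hy2 : 0 ≤ e ^ 2 * I2 / 2 := by positivity
  have hP0 : 0 ≤ a + e * I1 := by rw [ha]; linarith
  have hQ0 : 0 ≤ a - e * I1 := by rw [ha]; linarith
  have h1 : (a + e * I1) * (a - e * I1) ≤ P * Q := by
    refine mul_le_mul (by rw [ha]; linarith) (by rw [ha]; linarith) hQ0 ?_
    refine le_trans hP0 (by rw [ha]; linarith)
  have h2 : I0 ^ 2 + e ^ 2 * (I0 * I2) - 2 * C ^ 3 * e ^ 3 * I0 ^ 2 ≤ a ^ 2 := by
    have : a ^ 2 = I0 ^ 2 + e ^ 2 * (I0 * I2) - 2 * C ^ 3 * e ^ 3 * I0 ^ 2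
        + (e ^ 2 * I2 / 2 - C ^ 3 * e ^ 3 * I0) ^ 2 := by rw [ha]; ring
    rw [this]
    have := sq_nonneg (e ^ 2 * I2 / 2 - C ^ 3 * e ^ 3 * I0)
    linarith
  have h3 : R ^ 2 ≤ (I0 + e ^ 2 * IA / 2 + (e ^ 2 * η) * K2 * I0) ^ 2 :=
    pow_le_pow_left₀ hR0 hR 2
  have h4 : (I0 + e ^ 2 * IA / 2 + (e ^ 2 * η) * K2 * I0) ^ 2
      = I0 ^ 2 + e ^ 2 * (I0 * IA) + 2 * K2 * I0 ^ 2 * (e ^ 2 * η)
        + e ^ 4 * (IA / 2 + η * (K2 * I0)) ^ 2 := by ring
  have h5 : e ^ 4 * (IA / 2 + η * (K2 * I0)) ^ 2 ≤ (IA / 2 + K2 * I0) ^ 2 * (e ^ 2 * η) := by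
    have h51 : (IA / 2 + η * (K2 * I0)) ^ 2 ≤ (IA / 2 + K2 * I0) ^ 2 := by
      refine pow_le_pow_left₀ (by positivity) ?_ 2
      have : η * (K2 * I0) ≤ 1 * (K2 * I0) :=
        mul_le_mul_of_nonneg_right hη1 (mul_nonneg hK2 hI0)
      linarith
    have h52 : e ^ 4 ≤ e ^ 2 * η := by
      have h53 : e ^ 4 = e ^ 2 * (e * e) := by ring
      rw [h53]
      refine mul_le_mul_of_nonneg_left ?_ (sq_nonneg e)
      calc e * e ≤ e * 1 := mul_le_mul_of_nonneg_left he1 he.le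
        _ ≤ η := by linarith
    calc e ^ 4 * (IA / 2 + η * (K2 * I0)) ^ 2 ≤ (e ^ 2 * η) * (IA / 2 + K2 * I0) ^ 2 := by
          gcongr
      _ = _ := by ring
  have h6 : (a + e * I1) * (a - e * I1) = a ^ 2 - e ^ 2 * I1 ^ 2 := by ring
  have h7 : 2 * C ^ 3 * e ^ 3 * I0 ^ 2 ≤ 2 * C ^ 3 * I0 ^ 2 * (e ^ 2 * η) := by
    have h71 : e ^ 3 ≤ e ^ 2 * η := by
      have : e ^ 3 = e ^ 2 * e := by ring
      rw [this]
      exact mul_le_mul_of_nonneg_left heη (sq_nonneg e)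
    calc 2 * C ^ 3 * e ^ 3 * I0 ^ 2 = 2 * C ^ 3 * I0 ^ 2 * e ^ 3 := by ring
      _ ≤ _ := mul_le_mul_of_nonneg_left h71 (by positivity)
  nlinarith [h1, h2, h3, h4, h5, h6, h7, h]

end Pool.Agent.Helper18.DF
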